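import Pool.Agent.W820.BM.Stm0

/-!
# The maximum over a polyhedron is almost attained on the distinguished boundary
-/

set_option autoImplicit false

open Topology Filter Metric Set
open Pool.Agent.W820.BM

namespace Pool.Agent.W397.BM

theorem norm_sq_expand (a b : ℂ) : ‖b‖ ^ 2 =
    (((‖a‖ ^ 2 : ℝ) : ℂ) + 2 * (starRingEnd ℂ a) * (b - a)).re + ‖b - a‖ ^ 2 := by
  rw [← Complex.normSq_eq_norm_sq, ← Complex.normSq_eq_norm_sq, ← Complex.normSq_eq_norm_sq,
    Complex.normSq_apply, Complex.normSq_apply, Complex.normSq_apply]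
  simp only [Complex.add_re, Complex.ofReal_re, Complex.mul_re, Complex.mul_im, Complex.conj_re,
    Complex.conj_im, Complex.sub_re, Complex.sub_im, Complex.re_ofNat, Complex.im_ofNat]
  ring

/-- the local step -/
theorem step {n : ℕ} {hh : ℂ → ℂ} {g : Fin n → ℂ → ℂ} {v X : Fin n → ℂ} {τ ε₀ : ℝ}
    (hε₀ : 0 < ε₀) (hd : DifferentiableOn ℂ hh (closedBall 0 ε₀)) (hg : ∀ i, Differentiable ℂ (g i))
    (hs : ∑ i, ‖deriv (g i) 0‖ ^ 2 < τ * nsq X) :
    ∃ t : ℂ, ‖t‖ ≤ ε₀ ∧ (hh 0).re + τ * nsq v - ∑ i, ‖g i 0‖ ^ 2 <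
      (hh t).re + τ * nsq (v + t • X) - ∑ i, ‖g i t‖ ^ 2 := by
  set mid : ℝ := (∑ i, ‖deriv (g i) 0‖ ^ 2 + τ * nsq X) / 2 with hmid
  have h1 : Tendsto (fun t : ℂ => ∑ i, ‖slope (g i) 0 t‖ ^ 2) (𝓝[≠] 0)
      (𝓝 (∑ i, ‖deriv (g i) 0‖ ^ 2)) := by
    refine tendsto_finsetSum _ fun i _ => ?_
    exact (hasDerivAt_iff_tendsto_slope.1 (hg i 0).hasDerivAt).norm.pow 2
  have h2 : ∀ᶠ t : ℂ in 𝓝[≠] 0, ∑ i, ‖slope (g i) 0 t‖ ^ 2 < mid :=
    h1.eventually_lt_const (by linarith)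
  rw [eventually_nhdsWithin_iff, Metric.eventually_nhds_iff] at h2
  obtain ⟨ε₁, hε₁, h3⟩ := h2
  set ε : ℝ := min ε₀ (ε₁ / 2) with hε
  have hεpos : 0 < ε := lt_min hε₀ (by linarith)
  have hεε : ε ≤ ε₀ := min_le_left _ _
  have hε2 : ε < ε₁ := (min_le_right _ _).trans_lt (by linarith)
  set F : ℂ → ℂ := fun t => hh t + ((τ * nsq v : ℝ) : ℂ) + 2 * τ * t * ∑ i, X i * starRingEnd ℂ (v i)
    - ∑ i, (((‖g i 0‖ ^ 2 : ℝ) : ℂ) + 2 * (starRingEnd ℂ (g i 0)) * (g i t - g i 0)) with hF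
  have hFd : DifferentiableOn ℂ F (closedBall 0 ε) := by
    have e1 : DifferentiableOn ℂ hh (closedBall 0 ε) := hd.mono (closedBall_subset_closedBall hεε)
    have e2 : Differentiable ℂ (fun t : ℂ =>
        ∑ i, (((‖g i 0‖ ^ 2 : ℝ) : ℂ) + 2 * (starRingEnd ℂ (g i 0)) * (g i t - g i 0))) := by
      refine Differentiable.fun_sum fun i _ => ?_
      exact (((hg i).sub_const _).const_mul _).const_add _
    have e3 : Differentiable ℂ (fun t : ℂ => 2 * τ * t * ∑ i, X i * starRingEnd ℂ (v i)) :=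
      (differentiable_id.const_mul _).mul_const _
    exact ((e1.add_const _).add e3.differentiableOn).sub e2.differentiableOn
  set w : ℂ → ℝ := fun t => (hh t).re + τ * nsq (v + t • X) - ∑ i, ‖g i t‖ ^ 2 with hw
  have hid : ∀ t : ℂ, w t = (F t).re + (τ * nsq X * ‖t‖ ^ 2 - ∑ i, ‖g i t - g i 0‖ ^ 2) := by
    intro t
    have e1 : ∑ i, ‖g i t‖ ^ 2 = (∑ i, (((‖g i 0‖ ^ 2 : ℝ) : ℂ) +
        2 * (starRingEnd ℂ (g i 0)) * (g i t - g i 0))).re + ∑ i, ‖g i t - g i 0‖ ^ 2 := by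
      rw [Complex.re_sum, ← Finset.sum_add_distrib]
      exact Finset.sum_congr rfl fun i _ => norm_sq_expand _ _
    have e2 : nsq (v + t • X) = nsq v + (2 * t * ∑ i, X i * starRingEnd ℂ (v i)).re +
        nsq X * ‖t‖ ^ 2 := by
      unfold nsq
      rw [Finset.mul_sum, Complex.re_sum, Finset.sum_mul, ← Finset.sum_add_distrib,
        ← Finset.sum_add_distrib]
      refine Finset.sum_congr rfl fun i _ => ?_
      rw [norm_sq_expand (v i) ((v + t • X) i)]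
      simp only [Pi.add_apply, Pi.smul_apply, smul_eq_mul, add_sub_cancel_left]
      rw [norm_mul, mul_pow, Complex.add_re, Complex.ofReal_re]
      have : (2 * (starRingEnd ℂ) (v i) * (t * X i)) = 2 * t * (X i * (starRingEnd ℂ) (v i)) := by
        ring
      rw [this]
      ring
    simp only [hw, hF]
    rw [e1, e2, Complex.sub_re, Complex.add_re, Complex.add_re, Complex.ofReal_re]
    have e3 : (2 * (τ : ℂ) * t * ∑ i, X i * starRingEnd ℂ (v i)) =
        (τ : ℂ) * (2 * t * ∑ i, X i * starRingEnd ℂ (v i)) := by ring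
    rw [e3, Complex.re_ofReal_mul]
    ring
  have h0 : w 0 = (F 0).re := by
    rw [hid 0]; simp
  have hc : 0 < (τ * nsq X - mid) * ε ^ 2 := by
    apply mul_pos _ (by positivity)
    linarith
  obtain ⟨t, ht, hlt⟩ := no_max hεpos hc hFd h0 (by
    intro t ht
    rw [hid t, ht]
    have ht0 : t ≠ 0 := by
      rintro rfl
      rw [norm_zero] at ht
      exact hεpos.ne ht
    have h4 := h3 (y := t) (by rw [dist_zero_right, ht]; exact hε2) ht0
    have h5 : ∑ i, ‖g i t - g i 0‖ ^ 2 = (∑ i, ‖slope (g i) 0 t‖ ^ 2) * ε ^ 2 := by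
      rw [Finset.sum_mul]
      refine Finset.sum_congr rfl fun i _ => ?_
      rw [slope_def_field, sub_zero, norm_div, ht, div_pow]
      have : ε ^ 2 ≠ 0 := by positivity
      field_simp
    rw [h5]
    have h6 : (∑ i, ‖slope (g i) 0 t‖ ^ 2) * ε ^ 2 ≤ mid * ε ^ 2 :=
      mul_le_mul_of_nonneg_right h4.le (by positivity)
    nlinarith)
  refine ⟨t, by rw [ht]; exact hεε, ?_⟩
  have h7 : w 0 = (hh 0).re + τ * nsq v - ∑ i, ‖g i 0‖ ^ 2 := by
    simp only [hw]; simp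
  rw [← h7]
  exact hlt

/-- a direction killed by all the components but one -/
theorem exists_dir {n : ℕ} (k : Fin n) (A : (Fin n → ℂ) →L[ℂ] (Fin n → ℂ)) :
    ∃ X : Fin n → ℂ, ‖X‖ = 1 ∧ ∀ j, j ≠ k → A X j = 0 := by
  classical
  let B : (Fin n → ℂ) →ₗ[ℂ] ({j : Fin n // j ≠ k} → ℂ) :=
    LinearMap.pi fun j => (LinearMap.proj (j : Fin n)).comp A.toLinearMap
  have hlt : Module.finrank ℂ ({j : Fin n // j ≠ k} → ℂ) < Module.finrank ℂ (Fin n → ℂ) := by
    rw [Module.finrank_fintype_fun_eq_card, Module.finrank_fintype_fun_eq_card]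
    exact Fintype.card_subtype_lt (x := k) (by simp)
  have hker := LinearMap.ker_ne_bot_of_finrank_lt (f := B) hlt
  obtain ⟨x, hx, hx0⟩ := (Submodule.ne_bot_iff _).1 hker
  have hn : ‖x‖ ≠ 0 := norm_ne_zero_iff.2 hx0
  refine ⟨((‖x‖⁻¹ : ℝ) : ℂ) • x, ?_, fun j hj => ?_⟩
  · rw [norm_smul, Complex.norm_real, norm_inv, norm_norm, inv_mul_cancel₀ hn]
  · have h1 : B x = 0 := hx
    have h2 : A x j = 0 := congrFun h1 ⟨j, hj⟩
    rw [map_smul, Pi.smul_apply, h2, smul_zero]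

theorem one_le_nsq {n : ℕ} {X : Fin n → ℂ} (hX : ‖X‖ = 1) : 1 ≤ nsq X := by
  have h1 : ∀ i, ‖X i‖ ^ 2 ≤ nsq X := fun i =>
    Finset.single_le_sum (f := fun i => ‖X i‖ ^ 2) (fun _ _ => sq_nonneg _) (Finset.mem_univ i)
  by_contra hcon
  rw [not_le] at hcon
  have h0 : 0 ≤ nsq X := Finset.sum_nonneg fun _ _ => sq_nonneg _
  have h2 : ‖X‖ ≤ √(nsq X) := by
    rw [pi_norm_le_iff_of_nonneg (Real.sqrt_nonneg _)]
    intro i
    exact Real.le_sqrt_of_sq_le (h1 i)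
  have h3 : √(nsq X) < 1 := by
    rw [Real.sqrt_lt' one_pos]
    simpa using hcon
  linarith

theorem sh : S_SH := by
  classical
  intro n Ω Φ h r σ hΩ hΦ hh hr hσ hσ1 hK hKΩ v₀ hv₀
  set K : Set (Fin n → ℂ) := {v | ∀ i, ‖Φ v i‖ ≤ (1 + σ) * r i} with hKd
  have hv₀K : v₀ ∈ K := fun i => (hv₀ i).trans (by nlinarith [hr i])
  have hΦc : Continuous Φ := hΦ.continuous
  have hhc : ContinuousOn h K := (hh.continuousOn).mono hKΩ
  -- bounds
  obtain ⟨ρ, hρ⟩ : ∃ ρ : ℝ, ∀ v ∈ K, ‖v‖ ≤ ρ := hK.isBounded.exists_norm_le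
  have hρ0 : 0 ≤ ρ := (norm_nonneg _).trans (hρ v₀ hv₀K)
  obtain ⟨H, hH⟩ : ∃ H : ℝ, ∀ v ∈ K, |(h v).re| ≤ H := by
    obtain ⟨H, hH⟩ := hK.exists_bound_of_continuousOn hhc
    exact ⟨H, fun v hv => (Complex.abs_re_le_norm _).trans (hH v hv)⟩
  have hH0 : 0 ≤ H := (abs_nonneg _).trans (hH v₀ hv₀K)
  obtain ⟨G, hG⟩ : ∃ G : ℝ, ∀ v ∈ closedBall (0 : Fin n → ℂ) (ρ + 1), ‖Φ v‖ ≤ G :=
    (isCompact_closedBall 0 (ρ + 1)).exists_bound_of_continuousOn hΦc.continuousOn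
  set Bd : ℝ := n * ρ ^ 2 with hBd
  have hnsq : ∀ v ∈ K, nsq v ≤ Bd := by
    intro v hv
    unfold nsq
    refine (Finset.sum_le_sum fun i _ =>
      pow_le_pow_left₀ (norm_nonneg _) ((norm_le_pi_norm v i).trans (hρ v hv)) 2).trans ?_
    simp [hBd]
  have hnsq0 : ∀ v : Fin n → ℂ, 0 ≤ nsq v := fun v => Finset.sum_nonneg fun _ _ => sq_nonneg _
  have hBd0 : 0 ≤ Bd := by positivity
  set τ : ℝ := σ / (4 * (Bd + 1)) with hτ
  have hτ0 : 0 < τ := by positivity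
  have hτB : τ * Bd ≤ σ / 4 := by
    rw [hτ, div_mul_eq_mul_div, div_le_div_iff₀ (by positivity) (by norm_num)]
    nlinarith
  set q : ℝ := 1 + σ / 2 with hq
  have hq1 : 1 < q := by linarith
  have hq0 : 0 < q := by linarith
  have hqr : ∀ i, 0 < q * r i := fun i => mul_pos hq0 (hr i)
  set a : ℝ := (1 - σ) / q with ha
  have ha0 : 0 ≤ a := div_nonneg (by linarith) hq0.le
  have ha1 : a < 1 := by
    rw [ha, div_lt_one hq0]; linarith
  -- choice of the exponent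
  have hlimA : Tendsto (fun m : ℕ => (n : ℝ) * ((1 / q) ^ 2) ^ (m + 1)) atTop (𝓝 0) := by
    have h1 : (1 / q) ^ 2 < 1 := by
      rw [sq_lt_one_iff₀ (by positivity), div_lt_one hq0]; exact hq1
    have h2 := (tendsto_pow_atTop_nhds_zero_of_lt_one (sq_nonneg (1 / q)) h1).comp
      (tendsto_add_atTop_nat 1)
    simpa using h2.const_mul (n : ℝ)
  have hlimB : Tendsto (fun m : ℕ => (((1 + σ) / q) ^ 2) ^ (m + 1)) atTop atTop := by
    have h1 : 1 < ((1 + σ) / q) ^ 2 := by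
      rw [one_lt_sq_iff₀ (by positivity), one_lt_div hq0]; linarith
    exact (tendsto_pow_atTop_atTop_of_one_lt h1).comp (tendsto_add_atTop_nat 1)
  have hlimC : ∀ k, Tendsto (fun m : ℕ => ((m : ℝ) + 1) ^ 2 * (a ^ 2) ^ m * (G / (q * r k)) ^ 2)
      atTop (𝓝 0) := by
    intro k
    have h1 : |a ^ 2| < 1 := by
      rw [abs_of_nonneg (sq_nonneg a), sq_lt_one_iff₀ ha0]; exact ha1
    have t2 := tendsto_pow_const_mul_const_pow_of_abs_lt_one 2 h1
    have t1 := tendsto_pow_const_mul_const_pow_of_abs_lt_one 1 h1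
    have t0 := tendsto_pow_const_mul_const_pow_of_abs_lt_one 0 h1
    have h2 : Tendsto (fun m : ℕ => ((m : ℝ) + 1) ^ 2 * (a ^ 2) ^ m) atTop (𝓝 0) := by
      have h3 := (t2.add (t1.const_mul 2)).add t0
      simp only [mul_zero, add_zero] at h3
      refine h3.congr fun m => ?_
      rw [pow_zero, pow_one]
      ring
    simpa using h2.mul_const ((G / (q * r k)) ^ 2)
  have hevC : ∀ᶠ m : ℕ in atTop, ∀ k, ((m : ℝ) + 1) ^ 2 * (a ^ 2) ^ m * (G / (q * r k)) ^ 2 < τ := by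
    rw [eventually_all]
    exact fun k => (hlimC k).eventually_lt_const hτ0
  obtain ⟨m, ⟨hmA, hmB⟩, hmC⟩ := (((hlimA.eventually_lt_const (by linarith : 0 < σ / 2)).and
    (hlimB.eventually_gt_atTop (2 * H + Bd * τ + σ / 2))).and hevC).exists
  -- the function
  set p : (Fin n → ℂ) → ℝ := fun v => ∑ i, ‖(Φ v i / ((q * r i : ℝ) : ℂ)) ^ (m + 1)‖ ^ 2 with hp
  have hpi : ∀ v i, ‖(Φ v i / ((q * r i : ℝ) : ℂ)) ^ (m + 1)‖ ^ 2 =
      ((‖Φ v i‖ / (q * r i)) ^ 2) ^ (m + 1) := by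
    intro v i
    rw [norm_pow, norm_div, Complex.norm_real, Real.norm_of_nonneg (hqr i).le, ← pow_mul, ← pow_mul,
      mul_comm (m + 1) 2]
  have hp0 : ∀ v, 0 ≤ p v := fun v => Finset.sum_nonneg fun _ _ => sq_nonneg _
  have hpv₀ : p v₀ ≤ σ / 2 := by
    refine le_trans ?_ hmA.le
    simp only [hp]
    have : ∀ i ∈ (Finset.univ : Finset (Fin n)), ‖(Φ v₀ i / ((q * r i : ℝ) : ℂ)) ^ (m + 1)‖ ^ 2 ≤
        ((1 / q) ^ 2) ^ (m + 1) := by
      intro i _
      rw [hpi]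
      have h1 : ‖Φ v₀ i‖ / (q * r i) ≤ 1 / q := by
        rw [div_le_div_iff₀ (hqr i) hq0]
        nlinarith [hv₀ i]
      have h2 : 0 ≤ ‖Φ v₀ i‖ / (q * r i) := div_nonneg (norm_nonneg _) (hqr i).le
      exact pow_le_pow_left₀ (sq_nonneg _) (pow_le_pow_left₀ h2 h1 2) _
    refine (Finset.sum_le_sum this).trans ?_
    simp
  set w : (Fin n → ℂ) → ℝ := fun v => (h v).re + τ * nsq v - p v with hw
  have hwc : ContinuousOn w K := by
    have c1 : Continuous fun v : Fin n → ℂ => nsq v := by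
      unfold nsq; fun_prop
    have c2 : Continuous p := by
      simp only [hp]
      refine continuous_finsetSum _ fun i _ => ?_
      have := (continuous_apply i).comp hΦc
      exact (((this.div_const _).pow _).norm).pow 2
    exact ((Complex.continuous_re.comp_continuousOn hhc).add
      (c1.const_mul τ |>.continuousOn)).sub c2.continuousOn
  obtain ⟨v, hvK, hvmax⟩ := hK.exists_isMaxOn ⟨v₀, hv₀K⟩ hwc
  have hmax : ∀ u ∈ K, w u ≤ w v := fun u hu => hvmax hu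
  have hw₀ : w v₀ ≤ w v := hmax v₀ hv₀K
  have hHv := abs_le.1 (hH v hvK)
  have hHv₀ := abs_le.1 (hH v₀ hv₀K)
  have hτv : τ * nsq v ≤ τ * Bd := mul_le_mul_of_nonneg_left (hnsq v hvK) hτ0.le
  have hτv₀ : 0 ≤ τ * nsq v₀ := mul_nonneg hτ0.le (hnsq0 v₀)
  -- (i)
  have hint : ∀ i, ‖Φ v i‖ < (1 + σ) * r i := by
    intro i
    refine lt_of_le_of_ne (hvK i) fun heq => ?_
    have h1 : (((1 + σ) / q) ^ 2) ^ (m + 1) ≤ p v := by
      have h2 : ((‖Φ v i‖ / (q * r i)) ^ 2) ^ (m + 1) ≤ p v := by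
        rw [← hpi v i]
        exact Finset.single_le_sum
          (f := fun i => ‖(Φ v i / ((q * r i : ℝ) : ℂ)) ^ (m + 1)‖ ^ 2)
          (fun _ _ => sq_nonneg _) (Finset.mem_univ i)
      have h3 : ‖Φ v i‖ / (q * r i) = (1 + σ) / q := by
        rw [heq]
        have := (hr i).ne'
        field_simp
      rwa [h3] at h2
    have h4 : w v < w v₀ := by
      simp only [hw]
      nlinarith
    linarith
  have hopen : IsOpen {u : Fin n → ℂ | ∀ i, ‖Φ u i‖ < (1 + σ) * r i} := by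
    have : {u : Fin n → ℂ | ∀ i, ‖Φ u i‖ < (1 + σ) * r i} =
        ⋂ i, {u : Fin n → ℂ | ‖Φ u i‖ < (1 + σ) * r i} := by
      ext u; simp
    rw [this]
    refine isOpen_iInter_of_finite fun i => isOpen_lt ?_ continuous_const
    exact ((continuous_apply i).comp hΦc).norm
  refine ⟨v, fun k => ⟨?_, hvK k⟩, ?_⟩
  · -- (ii)
    by_contra hcon
    rw [not_le] at hcon
    obtain ⟨X, hX1, hX⟩ := exists_dir k (fderiv ℂ Φ v)
    set ℓ : ℂ → (Fin n → ℂ) := fun t => v + t • X with hℓ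
    have hℓd : Differentiable ℂ ℓ := (differentiable_id.smul_const X).const_add v
    have hℓ0 : ℓ 0 = v := by simp [hℓ]
    have hℓ' : HasDerivAt ℓ X 0 := by
      have := ((hasDerivAt_id (0 : ℂ)).smul_const X).const_add v
      rw [one_smul] at this
      exact this
    set f : Fin n → ℂ → ℂ := fun i t => Φ (ℓ t) i with hf
    have hfd : ∀ i, Differentiable ℂ (f i) := fun i =>
      (differentiable_pi.1 (hΦ.comp hℓd)) i
    have hf' : ∀ i, deriv (f i) 0 = fderiv ℂ Φ v X i := by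
      intro i
      have h1 : HasFDerivAt Φ (fderiv ℂ Φ v) (ℓ 0) := by
        rw [hℓ0]; exact (hΦ v).hasFDerivAt
      have h2 : HasDerivAt (fun t => Φ (ℓ t)) (fderiv ℂ Φ v X) 0 := h1.comp_hasDerivAt 0 hℓ'
      exact ((hasDerivAt_pi.1 h2) i).deriv
    set g : Fin n → ℂ → ℂ := fun i t => (f i t / ((q * r i : ℝ) : ℂ)) ^ (m + 1) with hg
    have hgd : ∀ i, Differentiable ℂ (g i) := fun i => ((hfd i).div_const _).pow _
    have hg' : ∀ i, deriv (g i) 0 = ((m : ℂ) + 1) * (f i 0 / ((q * r i : ℝ) : ℂ)) ^ m *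
        (fderiv ℂ Φ v X i / ((q * r i : ℝ) : ℂ)) := by
      intro i
      have h1 : HasDerivAt (f i) (fderiv ℂ Φ v X i) 0 := by
        rw [← hf' i]; exact (hfd i 0).hasDerivAt
      have h2 := ((h1.div_const ((q * r i : ℝ) : ℂ)).pow (m + 1)).deriv
      rw [show g i = (fun t => f i t / ((q * r i : ℝ) : ℂ)) ^ (m + 1) from rfl, h2]
      push_cast
      simp
    obtain ⟨ε, hε, hεK⟩ : ∃ ε > 0, ∀ t : ℂ, ‖t‖ ≤ ε → ℓ t ∈ K := by
      have h1 : ∀ᶠ t in 𝓝 (0 : ℂ), ℓ t ∈ {u : Fin n → ℂ | ∀ i, ‖Φ u i‖ < (1 + σ) * r i} := by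
        apply hℓd.continuous.continuousAt.eventually_mem
        rw [hℓ0]
        exact hopen.mem_nhds hint
      obtain ⟨ε, hε, h2⟩ := Metric.eventually_nhds_iff.1 h1
      refine ⟨ε / 2, by linarith, fun t ht i => ?_⟩
      exact (h2 (y := t) (by rw [dist_zero_right]; linarith) i).le
    have hhd : DifferentiableOn ℂ (fun t => h (ℓ t)) (closedBall 0 ε) := by
      intro t ht
      have h1 : ℓ t ∈ Ω := hKΩ (hεK t (by simpa using ht))
      exact ((hh.differentiableAt (hΩ.mem_nhds h1)).comp t (hℓd t)).differentiableWithinAt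
    have hsum : ∑ i, ‖deriv (g i) 0‖ ^ 2 < τ * nsq X := by
      have h1 : ∑ i, ‖deriv (g i) 0‖ ^ 2 = ‖deriv (g k) 0‖ ^ 2 := by
        refine Finset.sum_eq_single k (fun j _ hj => ?_) (fun h => absurd (Finset.mem_univ k) h)
        rw [hg' j, hX j hj]; simp
      have h2 : ‖fderiv ℂ Φ v X k‖ ≤ G := by
        rw [← hf' k]
        have h3 : ∀ z ∈ sphere (0 : ℂ) 1, ‖f k z‖ ≤ G := by
          intro z hz
          have hz1 : ‖z‖ = 1 := by simpa using hz
          refine (norm_le_pi_norm (Φ (ℓ z)) k).trans (hG _ ?_)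
          rw [mem_closedBall_zero_iff]
          refine (norm_add_le _ _).trans ?_
          rw [norm_smul, hz1, hX1]
          linarith [hρ v hvK]
        have := Complex.norm_deriv_le_of_forall_mem_sphere_norm_le one_pos
          (hfd k).diffContOnCl h3
        simpa using this
      have h3 : ‖f k 0 / ((q * r k : ℝ) : ℂ)‖ ≤ a := by
        rw [norm_div, Complex.norm_real, Real.norm_of_nonneg (hqr k).le, ha,
          div_le_div_iff₀ (hqr k) hq0]
        have h4 : ‖f k 0‖ < (1 - σ) * r k := by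
          simp only [hf, hℓ0]; exact hcon
        nlinarith
      have h4 : ‖deriv (g k) 0‖ ≤ ((m : ℝ) + 1) * a ^ m * (G / (q * r k)) := by
        rw [hg' k, norm_mul, norm_mul, norm_pow]
        have e1 : ‖(m : ℂ) + 1‖ = (m : ℝ) + 1 := by
          have : ((m : ℂ) + 1) = (((m : ℝ) + 1 : ℝ) : ℂ) := by push_cast; rfl
          rw [this, Complex.norm_real, Real.norm_of_nonneg (by positivity)]
        have e2 : ‖fderiv ℂ Φ v X k / ((q * r k : ℝ) : ℂ)‖ ≤ G / (q * r k) := by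
          rw [norm_div, Complex.norm_real, Real.norm_of_nonneg (hqr k).le]
          exact div_le_div_of_nonneg_right h2 (hqr k).le
        rw [e1]
        refine mul_le_mul (mul_le_mul_of_nonneg_left
          (pow_le_pow_left₀ (norm_nonneg _) h3 m) (by positivity)) e2 (norm_nonneg _) (by positivity)
      have h5 : ‖deriv (g k) 0‖ ^ 2 ≤ ((m : ℝ) + 1) ^ 2 * (a ^ 2) ^ m * (G / (q * r k)) ^ 2 := by
        refine (pow_le_pow_left₀ (norm_nonneg _) h4 2).trans (le_of_eq ?_)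
        ring_nf
      rw [h1]
      have h6 := hmC k
      have h7 : τ * 1 ≤ τ * nsq X := mul_le_mul_of_nonneg_left (one_le_nsq hX1) hτ0.le
      linarith
    obtain ⟨t, ht, hlt⟩ := step (v := v) hε hhd hgd hsum
    have h1 : w (ℓ 0) < w (ℓ t) := by
      have e0 : w (ℓ 0) = (h (ℓ 0)).re + τ * nsq v - ∑ i, ‖g i 0‖ ^ 2 := by
        simp only [hw, hp, hg, hf, hℓ0]
      have e1 : w (ℓ t) = (h (ℓ t)).re + τ * nsq (v + t • X) - ∑ i, ‖g i t‖ ^ 2 := rfl
      rw [e0, e1]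
      exact hlt
    rw [hℓ0] at h1
    exact absurd (hmax _ (hεK t ht)) (not_le.2 h1)
  · -- (iii)
    have h1 := hp0 v
    simp only [hw] at hw₀
    linarith

end Pool.Agent.W397.BM
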